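import Pool.Agent.helper85.PG.Spec

set_option autoImplicit false

namespace Pool.Agent.helper85.PG

open Module

/-- the exponential sum over `U` -/
noncomputable def T2_u (p : ℕ) [Fact p.Prime] (U : Finset (ZMod p)) (t : ZMod p) : ℂ :=
  ∑ x ∈ U, (ZMod.stdAddChar (t * x) : ℂ)

theorem T2_orth (p : ℕ) [Fact p.Prime] {ι : Type} (A : Finset ι) (f : ι → ZMod p) :
    ∑ t : ZMod p, ∑ a ∈ A, (ZMod.stdAddChar (t * f a) : ℂ) = (p : ℂ) * ((A.filter fun a => f a = 0).card : ℂ) := by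
  rw [Finset.sum_comm]
  have h : ∀ a ∈ A, ∑ t : ZMod p, (ZMod.stdAddChar (t * f a) : ℂ) = if f a = 0 then (p : ℂ) else 0 := by
    intro a _
    have := AddChar.sum_mulShift (f a) (ZMod.isPrimitive_stdAddChar p)
    rw [ZMod.card] at this
    rw [this]
    split_ifs <;> simp
  rw [Finset.sum_congr rfl h, ← Finset.sum_filter, Finset.sum_const, nsmul_eq_mul, mul_comm]

theorem T2_neg (p : ℕ) [Fact p.Prime] (U : Finset (ZMod p)) (t : ZMod p) :
    T2_u p U (-t) = (starRingEnd ℂ) (T2_u p U t) := by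
  unfold T2_u
  rw [map_sum]
  refine Finset.sum_congr rfl fun x _ => ?_
  rw [neg_mul, AddChar.map_neg_eq_conj]

theorem T2_norm_neg (p : ℕ) [Fact p.Prime] (U : Finset (ZMod p)) (t : ZMod p) :
    ‖T2_u p U (-t)‖ = ‖T2_u p U t‖ := by
  rw [T2_neg, RCLike.norm_conj]

theorem T2_le (p : ℕ) [Fact p.Prime] (U : Finset (ZMod p)) (t : ZMod p) : ‖T2_u p U t‖ ≤ (U.card : ℝ) := by
  unfold T2_u
  refine (norm_sum_le _ _).trans ?_
  rw [Finset.sum_congr rfl (fun x _ => AddChar.norm_apply (ZMod.stdAddChar (N := p)) (t * x))]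
  simp

theorem T2_parseval (p : ℕ) [Fact p.Prime] (U : Finset (ZMod p)) :
    ∑ t : ZMod p, ‖T2_u p U t‖ ^ 2 = (p : ℝ) * (U.card : ℝ) := by
  have h := T2_orth p (U ×ˢ U) (fun z => z.1 - z.2)
  have h1 : ((U ×ˢ U).filter fun z => z.1 - z.2 = 0).card = U.card := by
    have : ((U ×ˢ U).filter fun z => z.1 - z.2 = 0) = U.image (fun x => (x, x)) := by
      ext ⟨a, b⟩
      simp only [Finset.mem_filter, Finset.mem_product, Finset.mem_image, sub_eq_zero, Prod.mk.injEq]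
      constructor
      · rintro ⟨⟨h1, h2⟩, h3⟩
        exact ⟨a, h1, rfl, h3⟩
      · rintro ⟨x, h1, h2, h3⟩
        subst h2; subst h3
        exact ⟨⟨h1, h1⟩, rfl⟩
    rw [this, Finset.card_image_of_injective]
    intro x y hxy
    exact (Prod.mk.injEq _ _ _ _ ▸ hxy).1
  rw [h1] at h
  have h2 : ∀ t : ZMod p, ∑ a ∈ U ×ˢ U, (ZMod.stdAddChar (t * (a.1 - a.2)) : ℂ) = ((‖T2_u p U t‖ ^ 2 : ℝ) : ℂ) := by
    intro t
    have h3 : ((‖T2_u p U t‖ ^ 2 : ℝ) : ℂ) = T2_u p U t * T2_u p U (-t) := by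
      rw [T2_neg, Complex.mul_conj, Complex.normSq_eq_norm_sq]
    rw [h3]
    unfold T2_u
    rw [Finset.sum_mul_sum, Finset.sum_product]
    refine Finset.sum_congr rfl fun x _ => Finset.sum_congr rfl fun y _ => ?_
    rw [← AddChar.map_add_eq_mul]
    congr 1
    ring
  rw [Finset.sum_congr rfl (fun t _ => h2 t)] at h
  have h4 : ((∑ t : ZMod p, ‖T2_u p U t‖ ^ 2 : ℝ) : ℂ) = (((p : ℝ) * (U.card : ℝ) : ℝ) : ℂ) := by
    push_cast
    push_cast at h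
    exact h
  exact_mod_cast h4

/-- the number of pairs of `K`-tuples of `U` with sums `y`, `ρ y` -/
noncomputable def T2_C (p : ℕ) [Fact p.Prime] (K : ℕ) (U : Finset (ZMod p)) (ρ : ZMod p) : ℕ :=
  (((Fintype.piFinset (fun _ : Fin K => U)) ×ˢ (Fintype.piFinset (fun _ : Fin K => U))).filter
    fun z => ρ * (∑ i, z.1 i) - ∑ i, z.2 i = 0).card

theorem T2_sum (p : ℕ) [Fact p.Prime] {ι : Type} (A : Finset ι) (f : ι → ZMod p) :
    (ZMod.stdAddChar (∑ i ∈ A, f i) : ℂ) = ∏ i ∈ A, (ZMod.stdAddChar (f i) : ℂ) := by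
  classical
  induction A using Finset.induction_on with
  | empty => simp
  | insert a A ha ih => rw [Finset.sum_insert ha, Finset.prod_insert ha, AddChar.map_add_eq_mul, ih]

theorem T2_pi (p : ℕ) [Fact p.Prime] (K : ℕ) (U : Finset (ZMod p)) (t : ZMod p) :
    ∑ x ∈ Fintype.piFinset (fun _ : Fin K => U), (ZMod.stdAddChar (t * ∑ i, x i) : ℂ) = T2_u p U t ^ K := by
  unfold T2_u
  have h := Finset.prod_univ_sum (fun _ : Fin K => U) (fun (_ : Fin K) (y : ZMod p) => (ZMod.stdAddChar (t * y) : ℂ))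
  rw [Finset.prod_const, Finset.card_univ, Fintype.card_fin] at h
  rw [h]
  refine Finset.sum_congr rfl fun x _ => ?_
  rw [Finset.mul_sum, T2_sum]

theorem T2_count (p : ℕ) [Fact p.Prime] (K : ℕ) (U : Finset (ZMod p)) (ρ : ZMod p) :
    (p : ℂ) * (T2_C p K U ρ : ℂ) = ∑ t : ZMod p, T2_u p U (t * ρ) ^ K * T2_u p U (-t) ^ K := by
  unfold T2_C
  rw [← T2_orth p _ (fun z : (Fin K → ZMod p) × (Fin K → ZMod p) => ρ * (∑ i, z.1 i) - ∑ i, z.2 i)]
  refine Finset.sum_congr rfl fun t _ => ?_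
  rw [← T2_pi, ← T2_pi, Finset.sum_mul_sum, Finset.sum_product]
  refine Finset.sum_congr rfl fun x _ => Finset.sum_congr rfl fun y _ => ?_
  rw [← AddChar.map_add_eq_mul]
  congr 1
  ring

theorem T2_upper (p : ℕ) [Fact p.Prime] (K : ℕ) (U : Finset (ZMod p)) (ρ : ZMod p)
    (hno : ∀ t : ZMod p, t ≠ 0 → ¬ ((U.card : ℝ) ^ K ≤ p * ‖T2_u p U t‖ ^ K ∧ (U.card : ℝ) ^ K ≤ p * ‖T2_u p U (t * ρ)‖ ^ K)) :
    (p : ℝ) * (T2_C p K U ρ : ℝ) * p ≤ 2 * p * (U.card : ℝ) ^ (2 * K) := by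
  have hp : (0 : ℝ) < p := by exact_mod_cast (Fact.out : p.Prime).pos
  set u : ℝ := (U.card : ℝ) with hu
  have hu0 : 0 ≤ u := Nat.cast_nonneg _
  have h1 : (p : ℝ) * (T2_C p K U ρ : ℝ) ≤ ∑ t : ZMod p, ‖T2_u p U (t * ρ)‖ ^ K * ‖T2_u p U t‖ ^ K := by
    have h2 : ‖(p : ℂ) * (T2_C p K U ρ : ℂ)‖ = (p : ℝ) * (T2_C p K U ρ : ℝ) := by
      rw [norm_mul, Complex.norm_natCast, Complex.norm_natCast]
    rw [← h2, T2_count]
    refine (norm_sum_le _ _).trans (le_of_eq (Finset.sum_congr rfl fun t _ => ?_))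
    rw [norm_mul, norm_pow, norm_pow, T2_norm_neg]
  have h3 : ∀ t : ZMod p, t ≠ 0 → ‖T2_u p U (t * ρ)‖ ^ K * ‖T2_u p U t‖ ^ K * p ≤ u ^ (2 * K) := by
    intro t ht
    have hb1 : ‖T2_u p U (t * ρ)‖ ^ K ≤ u ^ K := pow_le_pow_left₀ (norm_nonneg _) (T2_le p U _) K
    have hb2 : ‖T2_u p U t‖ ^ K ≤ u ^ K := pow_le_pow_left₀ (norm_nonneg _) (T2_le p U _) K
    have hn1 : 0 ≤ ‖T2_u p U (t * ρ)‖ ^ K := pow_nonneg (norm_nonneg _) K
    have hn2 : 0 ≤ ‖T2_u p U t‖ ^ K := pow_nonneg (norm_nonneg _) K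
    have huK : 0 ≤ u ^ K := pow_nonneg hu0 K
    have h4 : u ^ (2 * K) = u ^ K * u ^ K := by rw [two_mul, pow_add]
    rw [h4]
    by_cases hc : u ^ K ≤ p * ‖T2_u p U t‖ ^ K
    · have hd : p * ‖T2_u p U (t * ρ)‖ ^ K ≤ u ^ K := by
        by_contra hcon
        exact hno t ht ⟨hc, (not_le.mp hcon).le⟩
      calc ‖T2_u p U (t * ρ)‖ ^ K * ‖T2_u p U t‖ ^ K * p = (p * ‖T2_u p U (t * ρ)‖ ^ K) * ‖T2_u p U t‖ ^ K := by ring
        _ ≤ u ^ K * u ^ K := mul_le_mul hd hb2 hn2 huK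
    · have hd : p * ‖T2_u p U t‖ ^ K ≤ u ^ K := (not_le.mp hc).le
      calc ‖T2_u p U (t * ρ)‖ ^ K * ‖T2_u p U t‖ ^ K * p = ‖T2_u p U (t * ρ)‖ ^ K * (p * ‖T2_u p U t‖ ^ K) := by ring
        _ ≤ u ^ K * u ^ K := mul_le_mul hb1 hd (by positivity) huK
  have h5 : (∑ t : ZMod p, ‖T2_u p U (t * ρ)‖ ^ K * ‖T2_u p U t‖ ^ K) * p ≤ 2 * p * u ^ (2 * K) := by
    rw [← Finset.add_sum_erase Finset.univ _ (Finset.mem_univ (0 : ZMod p)), add_mul, Finset.sum_mul]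
    have h6 : ‖T2_u p U (0 * ρ)‖ ^ K * ‖T2_u p U 0‖ ^ K * p ≤ u ^ (2 * K) * p := by
      apply mul_le_mul_of_nonneg_right _ hp.le
      rw [two_mul, pow_add]
      exact mul_le_mul (pow_le_pow_left₀ (norm_nonneg _) (T2_le p U _) K) (pow_le_pow_left₀ (norm_nonneg _) (T2_le p U _) K)
        (pow_nonneg (norm_nonneg _) K) (pow_nonneg hu0 K)
    have h7 : ∑ t ∈ Finset.univ.erase (0 : ZMod p), ‖T2_u p U (t * ρ)‖ ^ K * ‖T2_u p U t‖ ^ K * p ≤ p * u ^ (2 * K) := by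
      refine (Finset.sum_le_sum (fun t ht => h3 t (Finset.ne_of_mem_erase ht))).trans ?_
      rw [Finset.sum_const, nsmul_eq_mul]
      apply mul_le_mul_of_nonneg_right _ (pow_nonneg hu0 _)
      have : (Finset.univ.erase (0 : ZMod p)).card ≤ p := by
        refine (Finset.card_le_univ _).trans ?_
        rw [ZMod.card]
      exact_mod_cast this
    linarith
  calc (p : ℝ) * (T2_C p K U ρ : ℝ) * p ≤ (∑ t : ZMod p, ‖T2_u p U (t * ρ)‖ ^ K * ‖T2_u p U t‖ ^ K) * p :=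
        mul_le_mul_of_nonneg_right h1 hp.le
    _ ≤ _ := h5

theorem T2_lower (p : ℕ) [Fact p.Prime] (k : ℕ) (S U V : Finset (ZMod p)) (hVU : V ⊆ U)
    (h : ∀ y ∈ S, ∀ x : Fin k → ZMod p, (∀ i, x i ∈ V) → y - ∑ i, x i ∈ U) (ρ : ZMod p) :
    rr S ρ * V.card ^ (2 * k) ≤ T2_C p (k + 1) U ρ := by
  classical
  have h1 : rr S ρ * V.card ^ (2 * k) =
      ((S.filter fun y => ρ * y ∈ S) ×ˢ ((Fintype.piFinset (fun _ : Fin k => V)) ×ˢ (Fintype.piFinset (fun _ : Fin k => V)))).card := by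
    rw [Finset.card_product, Finset.card_product, Fintype.card_piFinset_const, rr, two_mul, pow_add]
  rw [h1]
  unfold T2_C
  refine Finset.card_le_card_of_injOn
    (fun z => ((Fin.cons (z.1 - ∑ i, z.2.1 i) z.2.1 : Fin (k + 1) → ZMod p), (Fin.cons (ρ * z.1 - ∑ i, z.2.2 i) z.2.2 : Fin (k + 1) → ZMod p)))
    ?_ ?_
  · rintro ⟨y, a, b⟩ hz
    simp only [Finset.coe_product, Set.mem_prod, Finset.mem_coe, Finset.mem_filter, Fintype.mem_piFinset] at hz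
    obtain ⟨⟨hy, hρy⟩, ha, hb⟩ := hz
    simp only [Finset.coe_filter, Set.mem_ofPred_eq, Finset.mem_product, Fintype.mem_piFinset]
    refine ⟨⟨?_, ?_⟩, ?_⟩
    · intro i
      refine Fin.cases ?_ (fun i => ?_) i
      · rw [Fin.cons_zero]
        exact h y hy a ha
      · rw [Fin.cons_succ]
        exact hVU (ha i)
    · intro i
      refine Fin.cases ?_ (fun i => ?_) i
      · rw [Fin.cons_zero]
        exact h _ hρy b hb
      · rw [Fin.cons_succ]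
        exact hVU (hb i)
    · rw [Fin.sum_cons, Fin.sum_cons]
      ring
  · rintro ⟨y, a, b⟩ - ⟨y', a', b'⟩ - hzz
    simp only [Prod.mk.injEq] at hzz
    obtain ⟨h2, h3⟩ := hzz
    have ha : a = a' := by
      funext i
      have := congrFun h2 i.succ
      simpa only [Fin.cons_succ] using this
    have hb : b = b' := by
      funext i
      have := congrFun h3 i.succ
      simpa only [Fin.cons_succ] using this
    have hy : y = y' := by
      have := congrFun h2 0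
      simp only [Fin.cons_zero] at this
      rw [ha] at this
      exact sub_left_inj.mp this
    rw [ha, hb, hy]

/-- the large spectrum -/
noncomputable def T2_Spec (p : ℕ) [Fact p.Prime] (K : ℕ) (U : Finset (ZMod p)) : Finset (ZMod p) := by
  classical
  exact Finset.univ.filter fun t => t ≠ 0 ∧ (U.card : ℝ) ^ K ≤ p * ‖T2_u p U t‖ ^ K

theorem T2_mem (p : ℕ) [Fact p.Prime] (K : ℕ) (U : Finset (ZMod p)) (t : ZMod p) :
    t ∈ T2_Spec p K U ↔ t ≠ 0 ∧ (U.card : ℝ) ^ K ≤ p * ‖T2_u p U t‖ ^ K := by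
  unfold T2_Spec
  rw [Finset.mem_filter]
  exact ⟨fun h => h.2, fun h => ⟨Finset.mem_univ _, h⟩⟩

theorem T2_card (p : ℕ) [Fact p.Prime] (K : ℕ) (hK : 0 < K) (U : Finset (ZMod p)) (hU : U.Nonempty) :
    ((T2_Spec p K U).card : ℝ) ≤ (p : ℝ) ^ (1 + 2 / (K : ℝ)) / (U.card : ℝ) := by
  have hp : (0 : ℝ) < p := by exact_mod_cast (Fact.out : p.Prime).pos
  have hu : (0 : ℝ) < (U.card : ℝ) := by exact_mod_cast hU.card_pos
  have hK' : (K : ℝ) ≠ 0 := by exact_mod_cast hK.ne'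
  set q : ℝ := (p : ℝ) ^ ((K : ℝ)⁻¹) with hq
  have hq0 : 0 ≤ q := Real.rpow_nonneg hp.le _
  have hqK : q ^ K = p := by
    rw [hq, ← Real.rpow_natCast, ← Real.rpow_mul hp.le, inv_mul_cancel₀ hK', Real.rpow_one]
  have hq2 : (p : ℝ) ^ (1 + 2 / (K : ℝ)) = p * q ^ 2 := by
    rw [Real.rpow_add hp, Real.rpow_one, hq, ← Real.rpow_natCast, ← Real.rpow_mul hp.le]
    congr 2
    push_cast
    rw [div_eq_mul_inv, mul_comm]
  have h1 : ∀ t ∈ T2_Spec p K U, (U.card : ℝ) ^ 2 ≤ ‖T2_u p U t‖ ^ 2 * q ^ 2 := by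
    intro t ht
    have h2 := ((T2_mem p K U t).mp ht).2
    have h3 : (U.card : ℝ) ^ K ≤ (‖T2_u p U t‖ * q) ^ K := by
      rw [mul_pow, hqK, mul_comm]
      exact h2
    have h4 : (U.card : ℝ) ≤ ‖T2_u p U t‖ * q := by
      by_contra hcon
      have := pow_lt_pow_left₀ (not_le.mp hcon) (mul_nonneg (norm_nonneg _) hq0) hK.ne'
      linarith
    rw [← mul_pow]
    exact pow_le_pow_left₀ hu.le h4 2
  have h5 : ((T2_Spec p K U).card : ℝ) * (U.card : ℝ) ^ 2 ≤ (p : ℝ) * (U.card : ℝ) * q ^ 2 := by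
    have h6 : ∑ t ∈ T2_Spec p K U, (U.card : ℝ) ^ 2 ≤ ∑ t ∈ T2_Spec p K U, ‖T2_u p U t‖ ^ 2 * q ^ 2 :=
      Finset.sum_le_sum h1
    rw [Finset.sum_const, nsmul_eq_mul, ← Finset.sum_mul] at h6
    refine h6.trans ?_
    apply mul_le_mul_of_nonneg_right _ (sq_nonneg _)
    rw [← T2_parseval]
    exact Finset.sum_le_sum_of_subset_of_nonneg (Finset.subset_univ _) (fun t _ _ => sq_nonneg _)
  rw [le_div_iff₀ hu, hq2]
  have h7 : ((T2_Spec p K U).card : ℝ) * (U.card : ℝ) * (U.card : ℝ) ≤ p * q ^ 2 * (U.card : ℝ) := by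
    calc ((T2_Spec p K U).card : ℝ) * (U.card : ℝ) * (U.card : ℝ) = ((T2_Spec p K U).card : ℝ) * (U.card : ℝ) ^ 2 := by ring
      _ ≤ (p : ℝ) * (U.card : ℝ) * q ^ 2 := h5
      _ = p * q ^ 2 * (U.card : ℝ) := by ring
  exact le_of_mul_le_mul_right h7 hu

theorem T2 : T2_stmt := by
  classical
  intro p _ K hK S U V hU hVU h
  obtain ⟨k, rfl⟩ : ∃ k, K = k + 1 := ⟨K - 1, by omega⟩
  have hp : (0 : ℝ) < p := by exact_mod_cast (Fact.out : p.Prime).pos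
  have h' : ∀ y ∈ S, ∀ x : Fin k → ZMod p, (∀ i, x i ∈ V) → y - ∑ i, x i ∈ U := h
  have hsub : (Finset.univ.filter fun ρ : ZMod p => ρ ≠ 0 ∧
      2 * (U.card : ℝ) ^ (2 * (k + 1)) < (p : ℝ) * (rr S ρ : ℝ) * (V.card : ℝ) ^ (2 * (k + 1) - 2)) ⊆
      ((T2_Spec p (k + 1) U) ×ˢ (T2_Spec p (k + 1) U)).image (fun z => z.2 * z.1⁻¹) := by
    intro ρ hρ
    rw [Finset.mem_filter] at hρ
    obtain ⟨-, hρ0, hlt⟩ := hρ
    have hex : ∃ t : ZMod p, t ≠ 0 ∧ ((U.card : ℝ) ^ (k + 1) ≤ p * ‖T2_u p U t‖ ^ (k + 1) ∧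
        (U.card : ℝ) ^ (k + 1) ≤ p * ‖T2_u p U (t * ρ)‖ ^ (k + 1)) := by
      by_contra hcon
      push Not at hcon
      have hup := T2_upper p (k + 1) U ρ (fun t ht hh => absurd hh.2 (not_le.mpr (hcon t ht hh.1)))
      have hlo := T2_lower p k S U V hVU h' ρ
      have hlo' : (rr S ρ : ℝ) * (V.card : ℝ) ^ (2 * k) ≤ (T2_C p (k + 1) U ρ : ℝ) := by exact_mod_cast hlo
      have he : 2 * (k + 1) - 2 = 2 * k := by omega
      rw [he] at hlt
      have h1 : (p : ℝ) * (T2_C p (k + 1) U ρ : ℝ) ≤ 2 * (U.card : ℝ) ^ (2 * (k + 1)) := by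
        have h2 : (p : ℝ) * (T2_C p (k + 1) U ρ : ℝ) * p ≤ (2 * (U.card : ℝ) ^ (2 * (k + 1))) * p := by
          calc _ ≤ _ := hup
            _ = _ := by ring
        exact le_of_mul_le_mul_right h2 hp
      have h3 : (p : ℝ) * (rr S ρ : ℝ) * (V.card : ℝ) ^ (2 * k) ≤ (p : ℝ) * (T2_C p (k + 1) U ρ : ℝ) := by
        rw [mul_assoc]
        exact mul_le_mul_of_nonneg_left hlo' hp.le
      linarith
    obtain ⟨t, ht, h1, h2⟩ := hex
    rw [Finset.mem_image]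
    refine ⟨(t, t * ρ), ?_, ?_⟩
    · rw [Finset.mem_product]
      exact ⟨(T2_mem p (k + 1) U t).mpr ⟨ht, h1⟩, (T2_mem p (k + 1) U _).mpr ⟨mul_ne_zero ht hρ0, h2⟩⟩
    · show t * ρ * t⁻¹ = ρ
      field_simp
  have hc1 := (Finset.card_le_card hsub).trans Finset.card_image_le
  rw [Finset.card_product] at hc1
  have hc2 := T2_card p (k + 1) (Nat.succ_pos k) U hU
  have hc3 : ((T2_Spec p (k + 1) U).card : ℝ) * ((T2_Spec p (k + 1) U).card : ℝ) ≤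
      ((p : ℝ) ^ (1 + 2 / ((k + 1 : ℕ) : ℝ)) / (U.card : ℝ)) ^ 2 := by
    rw [sq]
    exact mul_le_mul hc2 hc2 (Nat.cast_nonneg _) ((Nat.cast_nonneg _).trans hc2)
  refine le_trans ?_ hc3
  exact_mod_cast hc1

end Pool.Agent.helper85.PG
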