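import Pool.Agent.helper85.PG.Spec2
import Pool.Agent.helper85.PG.Basic
import Pool.Agent.helper82.Weil.Q
import Pool.Agent.helper82.Weil.R

set_option autoImplicit false

namespace Pool.Agent.helper85.PG

open Module Pointwise

theorem THA_num (d : ℕ) (P X f g h q b a E Q : ℝ) (hP : 0 < P) (hX : 1 ≤ X)
    (hY : 16 * 81 ^ d ≤ X ^ (2 * d + 2)) (hf0 : 0 ≤ f) (hg0 : 0 ≤ g) (hh0 : 0 ≤ h) (hE0 : 0 ≤ E) (hb : 0 < b)
    (hfg : f ≤ (3 * X ^ 2) ^ d * g) (hhf : h ≤ 9 ^ d * f) (hfq : f ≤ q) (ha0 : 0 ≤ a) (haf : a ≤ f)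
    (h1 : P * X ^ (8 * d + 8) * E ≤ a ^ 2 * b ^ 4) (hEb : E ≤ b ^ 3) (hXb : X ^ (8 * d + 8) ≤ b)
    (hbE : b ^ 4 ≤ P * E) (hQ : Q ≤ X * (g * h + g ^ 2 * h ^ 2 / P) * E) :
    1 < g ∧ (2 ≤ g → Q * (P * X) ≤ ((g - 1) * q * b ^ 2) ^ 2) := by
  set Y : ℝ := X ^ (2 * d + 2) with hYdef
  have hX0 : 0 < X := by linarith
  have hY4 : X ^ (8 * d + 8) = Y ^ 4 := by
    rw [hYdef, ← pow_mul]
    congr 1
    ring
  rw [hY4] at h1 hXb
  have h81 : (1 : ℝ) ≤ 81 ^ d := one_le_pow₀ (by norm_num)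
  have hY16 : 16 ≤ Y := by linarith
  have hY0 : 0 < Y := by linarith
  have hb4 : 0 < b ^ 4 := by positivity
  have hc : (3 * X ^ 2) ^ d * X ^ 2 = 3 ^ d * Y := by
    rw [hYdef, mul_pow, ← pow_mul, mul_assoc, ← pow_add]
  have h27 : (27 : ℝ) ^ d ≤ 81 ^ d := pow_le_pow_left₀ (by norm_num) (by norm_num) d
  have h3le : (3 : ℝ) ^ d ≤ 81 ^ d := pow_le_pow_left₀ (by norm_num) (by norm_num) d
  have hX2Y : X ^ 2 ≤ Y := by
    rw [hYdef]
    exact pow_le_pow_right₀ hX (by omega)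
  have hf2 : Y ^ 4 * b ^ 4 ≤ f ^ 2 * b ^ 4 := by
    have h2 : Y ^ 4 * b ^ 4 ≤ P * Y ^ 4 * E := by
      calc Y ^ 4 * b ^ 4 ≤ Y ^ 4 * (P * E) := mul_le_mul_of_nonneg_left hbE (by positivity)
        _ = P * Y ^ 4 * E := by ring
    have h3 : a ^ 2 * b ^ 4 ≤ f ^ 2 * b ^ 4 :=
      mul_le_mul_of_nonneg_right (pow_le_pow_left₀ ha0 haf 2) hb4.le
    linarith
  have hfY : Y ^ 2 ≤ f := by
    have h2 : (Y ^ 2) ^ 2 ≤ f ^ 2 := by
      have := le_of_mul_le_mul_right hf2 hb4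
      calc (Y ^ 2) ^ 2 = Y ^ 4 := by ring
        _ ≤ f ^ 2 := this
    exact le_of_sq_le_sq h2 hf0
  have hg1 : 1 < g := by
    by_contra hcon
    have hg : g ≤ 1 := not_lt.mp hcon
    have h2 : f ≤ (3 * X ^ 2) ^ d := by
      calc f ≤ (3 * X ^ 2) ^ d * g := hfg
        _ ≤ (3 * X ^ 2) ^ d * 1 := mul_le_mul_of_nonneg_left hg (by positivity)
        _ = _ := mul_one _
    have h3 : f * X ^ 2 ≤ 3 ^ d * Y := by
      rw [← hc]
      exact mul_le_mul_of_nonneg_right h2 (by positivity)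
    have h4 : f * 1 ≤ f * X ^ 2 := mul_le_mul_of_nonneg_left (one_le_pow₀ hX) hf0
    have h5 : Y * Y ≤ 3 ^ d * Y := by
      calc Y * Y = Y ^ 2 := by ring
        _ ≤ f := hfY
        _ ≤ 3 ^ d * Y := by linarith
    have h6 : Y ≤ 3 ^ d := le_of_mul_le_mul_right h5 hY0
    linarith
  refine ⟨hg1, fun hg2 => ?_⟩
  have hfgX : X ^ 2 * f ≤ 3 ^ d * Y * g := by
    calc X ^ 2 * f ≤ X ^ 2 * ((3 * X ^ 2) ^ d * g) := mul_le_mul_of_nonneg_left hfg (by positivity)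
      _ = ((3 * X ^ 2) ^ d * X ^ 2) * g := by ring
      _ = 3 ^ d * Y * g := by rw [hc]
  have hG : 0 ≤ g ^ 2 * f ^ 2 * b ^ 4 := by positivity
  -- first term
  have ht1 : X ^ 2 * (P * g * h) * E * Y ^ 4 ≤ 27 ^ d * Y * (g ^ 2 * f ^ 2 * b ^ 4) := by
    have h2 : P * E * Y ^ 4 ≤ f ^ 2 * b ^ 4 := by
      calc P * E * Y ^ 4 = P * Y ^ 4 * E := by ring
        _ ≤ a ^ 2 * b ^ 4 := h1
        _ ≤ f ^ 2 * b ^ 4 := mul_le_mul_of_nonneg_right (pow_le_pow_left₀ ha0 haf 2) hb4.le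
    have h3 : X ^ 2 * h ≤ 27 ^ d * Y * g := by
      calc X ^ 2 * h ≤ X ^ 2 * (9 ^ d * f) := mul_le_mul_of_nonneg_left hhf (by positivity)
        _ = 9 ^ d * (X ^ 2 * f) := by ring
        _ ≤ 9 ^ d * (3 ^ d * Y * g) := mul_le_mul_of_nonneg_left hfgX (by positivity)
        _ = (9 * 3) ^ d * Y * g := by rw [mul_pow]; ring
        _ = 27 ^ d * Y * g := by norm_num
    calc X ^ 2 * (P * g * h) * E * Y ^ 4 = (g * (X ^ 2 * h)) * (P * E * Y ^ 4) := by ring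
      _ ≤ (g * (27 ^ d * Y * g)) * (f ^ 2 * b ^ 4) := by
          apply mul_le_mul (mul_le_mul_of_nonneg_left h3 hg0) h2 (by positivity) (by positivity)
      _ = 27 ^ d * Y * (g ^ 2 * f ^ 2 * b ^ 4) := by ring
  have ht2 : X ^ 2 * (g ^ 2 * h ^ 2) * E * Y ^ 4 ≤ 81 ^ d * Y * (g ^ 2 * f ^ 2 * b ^ 4) := by
    have h2 : E * Y ^ 4 ≤ b ^ 4 := by
      calc E * Y ^ 4 ≤ b ^ 3 * b := mul_le_mul hEb hXb (by positivity) (by positivity)
        _ = b ^ 4 := by ring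
    have h3 : h ^ 2 ≤ 81 ^ d * f ^ 2 := by
      calc h ^ 2 ≤ (9 ^ d * f) ^ 2 := pow_le_pow_left₀ hh0 hhf 2
        _ = (9 ^ 2) ^ d * f ^ 2 := by rw [mul_pow, ← pow_mul, ← pow_mul, mul_comm d 2]
        _ = 81 ^ d * f ^ 2 := by norm_num
    calc X ^ 2 * (g ^ 2 * h ^ 2) * E * Y ^ 4 = (X ^ 2 * (g ^ 2 * h ^ 2)) * (E * Y ^ 4) := by ring
      _ ≤ (Y * (g ^ 2 * (81 ^ d * f ^ 2))) * b ^ 4 := by
          apply mul_le_mul _ h2 (by positivity) (by positivity)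
          apply mul_le_mul hX2Y _ (by positivity) hY0.le
          exact mul_le_mul_of_nonneg_left h3 (by positivity)
      _ = 81 ^ d * Y * (g ^ 2 * f ^ 2 * b ^ 4) := by ring
  have hY3 : 16 * 81 ^ d * Y ≤ Y ^ 4 := by
    have h2 : 16 * 81 ^ d * Y ≤ Y * Y := mul_le_mul_of_nonneg_right hY hY0.le
    have h3 : Y * Y ≤ Y ^ 4 := by
      calc Y * Y = Y ^ 2 := by ring
        _ ≤ Y ^ 4 := pow_le_pow_right₀ (by linarith) (by norm_num)
    linarith
  have hsum : X ^ 2 * (P * g * h + g ^ 2 * h ^ 2) * E * 4 ≤ g ^ 2 * f ^ 2 * b ^ 4 := by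
    have h2 : (X ^ 2 * (P * g * h + g ^ 2 * h ^ 2) * E * 4) * Y ^ 4 ≤ (g ^ 2 * f ^ 2 * b ^ 4) * Y ^ 4 := by
      calc (X ^ 2 * (P * g * h + g ^ 2 * h ^ 2) * E * 4) * Y ^ 4
          = 4 * (X ^ 2 * (P * g * h) * E * Y ^ 4) + 4 * (X ^ 2 * (g ^ 2 * h ^ 2) * E * Y ^ 4) := by ring
        _ ≤ 4 * (27 ^ d * Y * (g ^ 2 * f ^ 2 * b ^ 4)) + 4 * (81 ^ d * Y * (g ^ 2 * f ^ 2 * b ^ 4)) := by linarith
        _ ≤ 4 * (81 ^ d * Y * (g ^ 2 * f ^ 2 * b ^ 4)) + 4 * (81 ^ d * Y * (g ^ 2 * f ^ 2 * b ^ 4)) := by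
            have h3 : 27 ^ d * Y * (g ^ 2 * f ^ 2 * b ^ 4) ≤ 81 ^ d * Y * (g ^ 2 * f ^ 2 * b ^ 4) :=
              mul_le_mul_of_nonneg_right (mul_le_mul_of_nonneg_right h27 hY0.le) hG
            linarith
        _ = (8 * 81 ^ d * Y) * (g ^ 2 * f ^ 2 * b ^ 4) := by ring
        _ ≤ Y ^ 4 * (g ^ 2 * f ^ 2 * b ^ 4) := by
            apply mul_le_mul_of_nonneg_right _ hG
            have : 0 ≤ 81 ^ d * Y := by positivity
            linarith
        _ = _ := by ring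
    exact le_of_mul_le_mul_right h2 (by positivity)
  have hQ2 : Q * (P * X) ≤ X ^ 2 * (P * g * h + g ^ 2 * h ^ 2) * E := by
    calc Q * (P * X) ≤ (X * (g * h + g ^ 2 * h ^ 2 / P) * E) * (P * X) :=
          mul_le_mul_of_nonneg_right hQ (by positivity)
      _ = X ^ 2 * (P * g * h + g ^ 2 * h ^ 2) * E := by field_simp
  have hfin : g ^ 2 * f ^ 2 * b ^ 4 ≤ 4 * ((g - 1) * q * b ^ 2) ^ 2 := by
    have h2 : g ≤ 2 * (g - 1) := by linarith
    have h3 : g * f * b ^ 2 ≤ 2 * (g - 1) * q * b ^ 2 := by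
      apply mul_le_mul_of_nonneg_right _ (by positivity)
      exact mul_le_mul h2 hfq hf0 (by linarith)
    calc g ^ 2 * f ^ 2 * b ^ 4 = (g * f * b ^ 2) ^ 2 := by ring
      _ ≤ (2 * (g - 1) * q * b ^ 2) ^ 2 := pow_le_pow_left₀ (by positivity) h3 2
      _ = 4 * ((g - 1) * q * b ^ 2) ^ 2 := by ring
  linarith

theorem THA_big (c K : ℝ) (hc : 0 < c) : ∃ p₀ : ℕ, ∀ p : ℕ, p₀ ≤ p → K ≤ (p : ℝ) ^ c := by
  have h := ((tendsto_rpow_atTop hc).comp tendsto_natCast_atTop_atTop).eventually_ge_atTop K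
  obtain ⟨p₀, h0⟩ := Filter.eventually_atTop.mp h
  exact ⟨p₀, fun p hp => h0 p hp⟩

theorem THA_rr (p : ℕ) [Fact p.Prime] (M D : Finset (ZMod p)) (hM : ∀ m ∈ M, m ≠ 0) :
    Finset.mulEnergy M D ≤ ∑ m ∈ M, ∑ m' ∈ M, rr D (m / m') := by
  rw [← Pool.Agent.helper82.Weil.sum_eC]
  refine Finset.sum_le_sum fun m hm => Finset.sum_le_sum fun n hn => ?_
  unfold Pool.Agent.helper82.Weil.eC rr
  refine Finset.card_le_card_of_injOn (fun x => x.2) ?_ ?_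
  · rintro ⟨x, y⟩ hx
    simp only [Finset.coe_filter, Finset.mem_product, Set.mem_ofPred_eq] at hx
    simp only [Finset.coe_filter, Set.mem_ofPred_eq]
    obtain ⟨⟨h1, h2⟩, h3⟩ := hx
    refine ⟨h2, ?_⟩
    have h4 : m / n * y = x := by
      field_simp [hM n hn]
      exact h3.symm
    rw [h4]
    exact h1
  · rintro ⟨x, y⟩ hx ⟨x', y'⟩ hx' hxy
    simp only [Finset.coe_filter, Finset.mem_product, Set.mem_ofPred_eq] at hx hx'
    simp only at hxy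
    subst hxy
    have h4 : n * x = n * x' := by rw [hx.2, hx'.2]
    have h5 : x = x' := mul_left_cancel₀ (hM n hn) h4
    rw [h5]

theorem THA_cube (p : ℕ) [Fact p.Prime] (B : Finset (ZMod p)) : B.addEnergy B ≤ B.card ^ 3 := by
  have h : B.card ^ 3 = ((B ×ˢ B) ×ˢ B).card := by
    rw [Finset.card_product, Finset.card_product]
    ring
  rw [h]
  unfold Finset.addEnergy
  refine Finset.card_le_card_of_injOn (fun x => ((x.1.1, x.1.2), x.2.1)) ?_ ?_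
  · rintro ⟨⟨a, b⟩, ⟨c, e⟩⟩ hx
    simp only [Finset.coe_filter, Finset.mem_product, Set.mem_ofPred_eq] at hx
    simp only [Finset.coe_product, Set.mem_prod, Finset.mem_coe]
    exact ⟨hx.1.1, hx.1.2.1⟩
  · rintro ⟨⟨a, b⟩, ⟨c, e⟩⟩ hx ⟨⟨a', b'⟩, ⟨c', e'⟩⟩ hx' hxy
    simp only [Finset.coe_filter, Finset.mem_product, Set.mem_ofPred_eq] at hx hx'
    simp only [Prod.mk.injEq] at hxy
    obtain ⟨⟨h1, h2⟩, h3⟩ := hxy
    subst h1; subst h2; subst h3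
    have h4 : b + e = b + e' := by rw [← hx.2, ← hx'.2]
    rw [add_left_cancel h4]

theorem THA (hPKC : PKC_stmt) (hE2 : E2_stmt) : THA_stmt := by
  intro d ε hε
  set τ : ℝ := ε / (8 * d + 8) with hτ
  have hd8 : (0 : ℝ) < 8 * d + 8 := by positivity
  have hτ0 : 0 < τ := div_pos hε hd8
  have hτε : τ * (8 * d + 8) = ε := by
    rw [hτ]
    field_simp
  obtain ⟨k, p₁, δ, hk, hδ, hasy⟩ := Pool.Agent.helper82.Weil.asymp_three τ hτ0
  obtain ⟨p₂, hE⟩ := hE2 d τ hτ0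
  obtain ⟨p₃, h3⟩ := THA_big (τ * (2 * d + 2)) (16 * 81 ^ d) (by positivity)
  obtain ⟨p₄, h4⟩ := THA_big (δ / 2) (5 ^ d) (by positivity)
  obtain ⟨p₅, h5⟩ := THA_big τ 2 hτ0
  refine ⟨δ / 2, (p₁ + 1) + p₂ + p₃ + p₄ + p₅ + 16, by positivity, ?_⟩
  intro p _ hp P hP a₀ A B hA hAf hBε hen χ hχ β hβ
  have hpp : p.Prime := Fact.out
  have h3' := h3 p (by omega)
  have h4' := h4 p (by omega)
  have h5' := h5 p (by omega)
  have hp16 : 16 ≤ p := by omega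
  have hpR : (16 : ℝ) ≤ p := by exact_mod_cast hp16
  have hp0 : (0 : ℝ) < p := by linarith
  have hp1 : (1 : ℝ) < p := by linarith
  set X : ℝ := (p : ℝ) ^ τ with hX
  have hX2 : 2 ≤ X := h5'
  have hX0 : 0 < X := by linarith
  have hXpow : ∀ n : ℕ, (p : ℝ) ^ (τ * n) = X ^ n := by
    intro n
    rw [hX, ← Real.rpow_natCast, ← Real.rpow_mul hp0.le]
  have hXε : (p : ℝ) ^ ε = X ^ (8 * d + 8) := by
    rw [← hXpow, ← hτε]
    push_cast
    rfl
  have hXY : (16 : ℝ) * 81 ^ d ≤ X ^ (2 * d + 2) := by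
    rw [← hXpow]
    push_cast
    exact h3'
  -- `ε ≤ 1`
  have hBp : (B.card : ℝ) ≤ p := by
    have : B.card ≤ p := by
      have := Finset.card_le_univ B
      rwa [ZMod.card] at this
    exact_mod_cast this
  have hε1 : ε ≤ 1 := by
    have h : (p : ℝ) ^ ε ≤ (p : ℝ) ^ (1 : ℝ) := by
      rw [Real.rpow_one]
      linarith
    exact (Real.rpow_le_rpow_left_iff hp1).mp h
  have hτ8 : τ ≤ 1 / 2 := by
    have hd0 : (0 : ℝ) ≤ d := Nat.cast_nonneg d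
    have : τ * 8 ≤ 1 := by
      calc τ * 8 ≤ τ * (8 * d + 8) := mul_le_mul_of_nonneg_left (by linarith) hτ0.le
        _ = ε := hτε
        _ ≤ 1 := hε1
    linarith
  have hXsqrt : X * X ≤ p := by
    have h : X ≤ (p : ℝ) ^ ((1 : ℝ) / 2) := Real.rpow_le_rpow_of_exponent_le hp1.le hτ8
    have h' : (p : ℝ) ^ ((1 : ℝ) / 2) * (p : ℝ) ^ ((1 : ℝ) / 2) = p := by
      rw [← Real.rpow_add hp0]
      norm_num
    calc X * X ≤ (p : ℝ) ^ ((1 : ℝ) / 2) * (p : ℝ) ^ ((1 : ℝ) / 2) := mul_le_mul h h hX0.le (by positivity)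
      _ = p := h'
  have h2Xp : 2 * X < p := by
    nlinarith
  -- the sets
  set r : ℝ := (X ^ 2)⁻¹ with hr
  have hr0 : 0 < r := by positivity
  set M : Finset (ZMod p) := (P r).erase 0 with hM
  set N : ℕ := ⌊2 * X⌋₊ with hN
  have hN1 : (N : ℝ) ≤ 2 * X := Nat.floor_le (by positivity)
  have hN2 : 2 * X < N + 1 := Nat.lt_floor_add_one _
  set T : Finset (ZMod p) := (Finset.Icc 1 N).image (fun n : ℕ => (n : ZMod p)) with hT
  have hTcard : T.card = N := by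
    rw [hT, Finset.card_image_of_injOn]
    · simp
    · intro x hx y hy hxy
      simp only [Finset.coe_Icc, Set.mem_Icc] at hx hy
      have hNp : N < p := by
        have : (N : ℝ) < p := by linarith
        exact_mod_cast this
      simp only at hxy
      have h := (ZMod.natCast_eq_natCast_iff' x y p).mp hxy
      rwa [Nat.mod_eq_of_lt (by omega), Nat.mod_eq_of_lt (by omega)] at h
  set P' : Finset (ZMod p) := (P 2).image (fun y => a₀ + y) with hP'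
  have hP'card : P'.card = (P 2).card := Finset.card_image_of_injective _ (add_right_injective a₀)
  have hMne : ∀ m ∈ M, m ≠ 0 := fun m hm => Finset.ne_of_mem_erase hm
  have hrN : ∀ n : ℕ, n ≤ N → (n : ℝ) * r ≤ 1 := by
    intro n hn
    have h1 : (n : ℝ) ≤ 2 * X := le_trans (by exact_mod_cast hn) hN1
    rw [hr, ← div_eq_mul_inv, div_le_one (by positivity)]
    nlinarith
  have hshift : ∀ a ∈ A, ∀ m ∈ M, ∀ t ∈ T, a - m * t ∈ P' := by
    intro a ha m hm t ht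
    rw [hT, Finset.mem_image] at ht
    obtain ⟨n, hn, rfl⟩ := ht
    rw [Finset.mem_Icc] at hn
    have h1 : (n : ZMod p) * m ∈ P (n * r) := hP.nat_mul_mem (Finset.mem_of_mem_erase hm) n
    have h2 : (n : ZMod p) * m ∈ P 1 := hP.mono (hrN n hn.2) h1
    have h3 := hP.sub_mem (hA a ha) h2
    rw [hP', Finset.mem_image]
    refine ⟨a - a₀ - (n : ZMod p) * m, ?_, by ring⟩
    have h4 : (1 : ℝ) + 1 = 2 := by norm_num
    rwa [h4] at h3
  have hdiff : P' - P' ⊆ P 4 := by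
    intro z hz
    rw [Finset.mem_sub] at hz
    obtain ⟨x, hx, y, hy, rfl⟩ := hz
    rw [hP', Finset.mem_image] at hx hy
    obtain ⟨x', hx', rfl⟩ := hx
    obtain ⟨y', hy', rfl⟩ := hy
    have h3 := hP.sub_mem hx' hy'
    have h4 : (2 : ℝ) + 2 = 4 := by norm_num
    rw [h4] at h3
    have h5 : a₀ + x' - (a₀ + y') = x' - y' := by ring
    rw [h5]
    exact h3
  -- sizes
  have hpk1 : ((P 1).card : ℝ) ≤ (3 * X ^ 2) ^ d * ((P r).card : ℝ) := by
    refine ((hPKC.2.2 p d P hP 1 r zero_le_one hr0).1).trans ?_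
    apply mul_le_mul_of_nonneg_right _ (Nat.cast_nonneg _)
    apply pow_le_pow_left₀ (by positivity)
    rw [hr, div_inv_eq_mul]
    nlinarith
  have hpk4 : ((P 4).card : ℝ) ≤ 9 ^ d * ((P 1).card : ℝ) := by
    refine ((hPKC.2.2 p d P hP 4 1 (by norm_num) one_pos).1).trans (le_of_eq ?_)
    norm_num
  have hpk2 : ((P 2).card : ℝ) ≤ 5 ^ d * ((P 1).card : ℝ) := by
    refine ((hPKC.2.2 p d P hP 2 1 (by norm_num) one_pos).1).trans (le_of_eq ?_)
    norm_num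
  have h12 : ((P 1).card : ℝ) ≤ ((P 2).card : ℝ) := by
    exact_mod_cast Finset.card_le_card (hP.mono (by norm_num : (1 : ℝ) ≤ 2))
  have hAP : (A.card : ℝ) ≤ ((P 1).card : ℝ) := by
    have : A.card ≤ (P 1).card := by
      refine Finset.card_le_card_of_injOn (fun a => a - a₀) (fun a ha => hA a ha) ?_
      intro x _ y _ hxy
      exact sub_left_injective hxy
    exact_mod_cast this
  have hBpos : (0 : ℝ) < B.card := lt_of_lt_of_le (Real.rpow_pos_of_pos hp0 ε) hBε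
  have hcube : (B.addEnergy B : ℝ) ≤ (B.card : ℝ) ^ 3 := by exact_mod_cast THA_cube p B
  have hbE : (B.card : ℝ) ^ 4 ≤ p * (B.addEnergy B : ℝ) := by
    have h := Finset.le_card_add_mul_addEnergy B B
    have h' : (B + B).card ≤ p := by
      have := Finset.card_le_univ (B + B)
      rwa [ZMod.card] at this
    have h'' : B.card ^ 2 * B.card ^ 2 ≤ p * B.addEnergy B := h.trans (Nat.mul_le_mul_right _ h')
    have h3 : (B.card : ℝ) ^ 2 * (B.card : ℝ) ^ 2 ≤ p * (B.addEnergy B : ℝ) := by exact_mod_cast h''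
    calc (B.card : ℝ) ^ 4 = (B.card : ℝ) ^ 2 * (B.card : ℝ) ^ 2 := by ring
      _ ≤ _ := h3
  have hr4 : r ≤ 4 := by
    have : r ≤ 1 := by
      rw [hr]
      exact inv_le_one_of_one_le₀ (one_le_pow₀ (by linarith))
    linarith
  have hEn : (Finset.mulEnergy M (P' - P') : ℝ) ≤
      X * (((P r).card : ℝ) * ((P 4).card : ℝ) + ((P r).card : ℝ) ^ 2 * ((P 4).card : ℝ) ^ 2 / p) := by
    have h1 : Finset.mulEnergy M (P' - P') ≤ Finset.mulEnergy M (P 4) := Finset.mulEnergy_mono_right hdiff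
    have h2 := THA_rr p M (P 4) hMne
    have h3 := hE p (by omega) P P hP hP r 4 hr0 (by norm_num) (Finset.card_le_card (hP.mono hr4))
    have h4 : (Finset.mulEnergy M (P' - P') : ℝ) ≤ ∑ m ∈ M, ∑ m' ∈ M, (rr (P 4) (m / m') : ℝ) := by
      exact_mod_cast h1.trans h2
    exact h4.trans h3
  have hen' : (p : ℝ) * X ^ (8 * d + 8) * (B.addEnergy B : ℝ) ≤ (A.card : ℝ) ^ 2 * (B.card : ℝ) ^ 4 := by
    rw [← hXε, ← Real.rpow_one_add' hp0.le (by linarith)]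
    exact hen
  have hnum := THA_num d p X ((P 1).card) ((P r).card) ((P 4).card) ((P 2).card) (B.card) (A.card)
    (B.addEnergy B) ((Finset.mulEnergy M (P' - P') : ℝ) * (B.addEnergy B : ℝ)) hp0 (by linarith) hXY
    (Nat.cast_nonneg _) (Nat.cast_nonneg _) (Nat.cast_nonneg _) (Nat.cast_nonneg _) hBpos hpk1 hpk4 h12
    (Nat.cast_nonneg _) hAP hen' hcube (by rw [← hXε]; exact hBε) hbE
    (mul_le_mul_of_nonneg_right hEn (Nat.cast_nonneg _))
  obtain ⟨hg1, hnum⟩ := hnum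
  have hg2 : 2 ≤ (P r).card := by
    have : 1 < (P r).card := by exact_mod_cast hg1
    omega
  have hnum' := hnum (by exact_mod_cast hg2)
  have hMcard : (M.card : ℝ) = ((P r).card : ℝ) - 1 := by
    rw [hM, Finset.card_erase_of_mem (hP.zero_mem hr0.le), Nat.cast_sub (by omega)]
    simp
  have heb := Pool.Agent.helper82.Weil.energy_bound χ hχ A P' M T B hMne hshift β hβ k hk
  rw [ZMod.card] at heb
  set E : ℝ := ∑ a ∈ A, ‖∑ b ∈ B, β b * χ (a + b)‖ ^ 2 with hEdef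
  have hE0 : 0 ≤ E := Finset.sum_nonneg fun a _ => sq_nonneg _
  have hfinal := hasy p (by omega) (M.card) (T.card) (A.card) (P'.card) (B.card)
    ((Finset.mulEnergy M (P' - P') : ℝ) * (B.addEnergy B : ℝ)) E
    (by rw [hMcard]; linarith) (by rw [hTcard]; linarith) (Nat.cast_nonneg _) (Nat.cast_nonneg _)
    (by
      rw [hP'card]
      calc ((P 2).card : ℝ) ≤ 5 ^ d * ((P 1).card : ℝ) := hpk2
        _ ≤ (p : ℝ) ^ (δ / 2) * ((p : ℝ) ^ (δ / 2) * (A.card : ℝ)) :=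
            mul_le_mul h4' hAf (Nat.cast_nonneg _) (by positivity)
        _ = (p : ℝ) ^ δ * (A.card : ℝ) := by
            rw [← mul_assoc, ← Real.rpow_add hp0]
            congr 2
            ring)
    (Nat.cast_nonneg _) (by positivity) hE0 heb
    (by
      have h1 : (p : ℝ) ^ (1 + τ) = p * X := by
        rw [hX, Real.rpow_add hp0, Real.rpow_one]
      rw [h1, hMcard, hP'card]
      exact hnum')
  -- Cauchy-Schwarz
  have hcs : (∑ a ∈ A, ‖∑ b ∈ B, β b * χ (a + b)‖) ^ 2 ≤ (A.card : ℝ) * E := by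
    rw [hEdef]
    exact sq_sum_le_card_mul_sum_sq
  have hdm : (p : ℝ) ^ (-δ) ≤ (p : ℝ) ^ (-(δ / 2)) := Real.rpow_le_rpow_of_exponent_le hp1.le (by linarith)
  have hsq : (∑ a ∈ A, ‖∑ b ∈ B, β b * χ (a + b)‖) ^ 2 ≤ ((p : ℝ) ^ (-(δ / 2)) * ((A.card : ℝ) * (B.card : ℝ))) ^ 2 := by
    calc (∑ a ∈ A, ‖∑ b ∈ B, β b * χ (a + b)‖) ^ 2 ≤ (A.card : ℝ) * E := hcs
      _ ≤ (A.card : ℝ) * (((p : ℝ) ^ (-δ) * (B.card : ℝ)) ^ 2 * (A.card : ℝ)) :=
          mul_le_mul_of_nonneg_left hfinal (Nat.cast_nonneg _)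
      _ = ((p : ℝ) ^ (-δ) * ((A.card : ℝ) * (B.card : ℝ))) ^ 2 := by ring
      _ ≤ _ := by
          apply pow_le_pow_left₀ (by positivity)
          exact mul_le_mul_of_nonneg_right hdm (by positivity)
  exact le_of_sq_le_sq hsq (by positivity)

end Pool.Agent.helper85.PG
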